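import Mathlib
import Pool.Agent.Lib.MP_793dac_co.Defs
import Pool.Agent.Lib.MP_793dac_co.Main

/-!
# The number of flattened Stirling permutations with exactly three runs
-/

namespace Pool.Agent.Results.MP_793dac_co.ThreeRunsCount

open Pool.Agent.Lib.MP_793dac_co Finset

/-- **Theorem.** For every `n ≥ 1` the number of flattened Stirling permutations of order `n` with
exactly three runs is given by the conjectured identity, with the coefficient `2` also on the
second double sum; and the identity with coefficient `1` there holds exactly for `n ≤ 4`. -/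
theorem result (n : ℕ) (hn : 1 ≤ n) :
    ((flat3 n).ncard =
      2 * (∑ k ∈ Icc 1 (n - 1), (n - 1).choose k *
          ∑ j ∈ Icc 2 (n - 1 - k), (n - 1 - k).choose j) +
        2 * (∑ k ∈ Icc 2 (n - 1), (n - 1).choose k *
          ∑ j ∈ Icc 2 (n - 1 - k), (n - 1 - k).choose j) +
        ∑ k ∈ Icc 3 (n - 1), (2 ^ (k - 1) - 2) * (n - 1).choose k) ∧
    ((flat3 n).ncard =
      2 * (∑ k ∈ Icc 1 (n - 1), (n - 1).choose k *
          ∑ j ∈ Icc 2 (n - 1 - k), (n - 1 - k).choose j) +
        (∑ k ∈ Icc 2 (n - 1), (n - 1).choose k *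
          ∑ j ∈ Icc 2 (n - 1 - k), (n - 1 - k).choose j) +
        ∑ k ∈ Icc 3 (n - 1), (2 ^ (k - 1) - 2) * (n - 1).choose k ↔ n ≤ 4) := by
  have h := ncard_flat3 n hn
  unfold rhs at h
  refine ⟨h, ?_⟩
  rw [h, ← second_sum_eq_zero_iff n hn]
  omega

end Pool.Agent.Results.MP_793dac_co.ThreeRunsCount
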